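import Mathlib
import Pool.Agent.V11310.CL.Open

set_option autoImplicit false

/-!
# The Harbourne-Hirschowitz conjecture for the closure of the known classes under collisions

`Reached N0 d w` (`Pool.Agent.V11310.CL.Reached`): the multiset of the multiplicities `w` belongs, in
degree `d`, to the smallest class of multisets of multiplicities with one of the two signs (no curves,
independent conditions) which contains the comparable, the large and the good classes (`Base`) and is
closed under collisions (a point of multiplicity `μ` may be replaced by points `M'` if `M'` is in the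
class in degree `μ - 1`), quadratic transformations, doubling (four points of multiplicity `m` for one
point of the multiplicities `2 m` and `2 m + 1`), adding or removing points and changing the degree.

If `(d; w)` is reached, or finitely many reflections in classes `H - E_i - E_j - E_k` carry it to a
standard class which is reached, then for general points the linear system `(d; w)` has the expected
dimension. For every `(d; w)` and general points: the linear system `(d; w)` is special if and only if
it is `(-1)`-special, unless its reduced form is a special standard class which is not reached.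
-/

namespace Pool.Agent.Results.MP_6b2d39_ag.CollisionClosure

open MvPolynomial Pool.Agent.TH167.SHDefs
open Pool.Agent.V11310.CL
open Pool.Agent.Y536.SH (Standard)

/-- For general points the linear system has the expected dimension. -/
def Expected {n : ℕ} (d : ℕ) (w : Fin n → ℕ) : Prop :=
  ∃ F : MvPolynomial (Fin n × Fin 2) ℂ, F ≠ 0 ∧ ∀ P : Fin n → Fin 2 → ℂ,
    MvPolynomial.eval (fun ij : Fin n × Fin 2 => P ij.1 ij.2) F ≠ 0 →
      dimL P d w = max (virtdim d w) (-1)

theorem of_covered {N0 : ℕ} (hN0 : Pool.Agent.Y939.NC.RegExp N0) {n : ℕ} (hn : 4 ≤ n) {d : ℕ}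
    {w : Fin n → ℕ} (h : Covered N0 d w) : Expected d w := by
  obtain ⟨F, hF, hF'⟩ := covered_open hN0 hn h
  refine ⟨F, hF, fun P hP => ?_⟩
  have h1 : Module.finrank ℂ ↥(sys P d w) =
      Nat.choose (d + 2) 2 - ∑ i, Nat.choose (w i + 1) 2 := hF' P hP
  have h2 : ∑ i, ((w i + 1).choose 2 : ℤ) = ((∑ i, Nat.choose (w i + 1) 2 : ℕ) : ℤ) := by
    push_cast
    rfl
  unfold dimL virtdim
  rw [h1, h2]
  omega

theorem result : ∃ N0 : ℕ, ∀ (n : ℕ) (_ : 4 ≤ n) (d : ℕ) (w : Fin n → ℕ),
    (Base N0 d w → Reached N0 d w) ∧
    (Reached N0 d w → Expected d w) ∧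
    (∀ (d' : ℕ) (w' : Fin n → ℕ), Carries d w d' w' → Standard d' w' → Reached N0 d' w' →
      Expected d w) ∧
    ∃ F : MvPolynomial (Fin n × Fin 2) ℂ, F ≠ 0 ∧
      ∀ P : Fin n → Fin 2 → ℂ, MvPolynomial.eval (fun ij : Fin n × Fin 2 => P ij.1 ij.2) F ≠ 0 →
        (MinusOneSpecial P d w → Special P d w) ∧
        (Special P d w → MinusOneSpecial P d w ∨
          ∃ (d'' : ℕ) (w'' : Fin n → ℕ) (k : ℕ) (G : Fin k → MvPolynomial (Fin 3) ℂ)
            (e : Fin k → ℕ) (u : Fin k → Fin n → ℕ) (N : Fin k → ℕ) (d' : ℕ) (w' : Fin n → ℕ),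
            Decomp P d w d'' w'' G e u N ∧
            Relation.ReflTransGen Quadratic (d'', w'') (d', w') ∧ Standard d' w' ∧
            Special P d' w' ∧ ¬ Reached N0 d' w') := by
  obtain ⟨N0, hN0⟩ := Pool.Agent.Y939.NC.reg_exp
  refine ⟨N0, fun n hn d w => ⟨reached_of_base, fun h => of_covered hN0 hn (Or.inl h),
    fun d' w' hc hs hG => of_covered hN0 hn (Or.inr ⟨d', w', hc, hs, hG⟩), ?_⟩⟩
  exact Pool.Agent.TH442.NF.hh_open hn (Q := fun d' w' => Reached N0 d' w')
      (fun hP _ _ _ hG => reached_exp hN0 hG hP) d w

end Pool.Agent.Results.MP_6b2d39_ag.CollisionClosure
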